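import Pool.Agent.W21.RV.Defs
import Pool.Agent.H442R2.BX.Fi

set_option autoImplicit false

/-!
RV project (helper21), task FI: all rough moduli, from the statement BK for one coarse block
(adapted from `BX/Fi.lean`).
-/

namespace Pool.Agent.W95.RV

open Finset
open Pool.Agent.H442R2
open Pool.Agent.H442R2.KF
open Pool.Agent.H442R2.BX (Df)

open Pool.Agent.H442R2.BX.TaskFI in
theorem FI (hBK : Pool.Agent.W21.RV.St_BK) : Pool.Agent.W21.RV.St_FI := by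
  intro θ ε hθ hε
  obtain ⟨θ', hθ'def⟩ : ∃ θ' : ℝ, θ' = max θ (1 / 4) := ⟨_, rfl⟩
  have hθ' : θ' < 1 / 2 := by rw [hθ'def]; exact max_lt hθ (by norm_num)
  have hθ'0 : 0 < θ' := by rw [hθ'def]; exact lt_of_lt_of_le (by norm_num) (le_max_right _ _)
  have hθθ' : θ ≤ θ' := by rw [hθ'def]; exact le_max_left _ _
  obtain ⟨ε₀, η, C, hε₀, hη, hC, hbk⟩ := hBK θ' ε hθ' hε
  obtain ⟨ε₁, hε₁def⟩ : ∃ ε₁ : ℝ, ε₁ = ε₀ / 2 := ⟨_, rfl⟩
  have hε₁ : 0 < ε₁ := by rw [hε₁def]; linarith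
  obtain ⟨I, hIdef⟩ : ∃ I : ℕ, I = ⌈1 / ε₁⌉₊ := ⟨_, rfl⟩
  have hI1 : 1 ≤ (I : ℝ) * ε₁ := by
    have h : 1 / ε₁ ≤ (I : ℝ) := by rw [hIdef]; exact Nat.le_ceil _
    rwa [div_le_iff₀ hε₁] at h
  obtain ⟨N₀, hN₀def⟩ : ∃ N₀ : ℝ, N₀ = (2 : ℝ) ^ (1 / ε₁) := ⟨_, rfl⟩
  have hN₀1 : 1 ≤ N₀ := by
    rw [hN₀def]; exact Real.one_le_rpow (by norm_num) (by positivity)
  have hN₀0 : 0 < N₀ := by linarith
  refine ⟨η, (I : ℝ) ^ 2 * C + 4 * N₀ ^ 4 * N₀ ^ η, hη, by positivity, ?_⟩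
  intro N hN f hf A hA T hT
  have hN1 : (1 : ℝ) ≤ N := by exact_mod_cast (by omega : 1 ≤ N)
  have hN2 : (2 : ℝ) ≤ N := by exact_mod_cast hN
  have hN0 : (0 : ℝ) < N := by linarith
  have hlog : 0 < Real.log N := Real.log_pos (by linarith)
  have hR0 : 0 ≤ 1 + (A.card : ℝ) * (N : ℝ) ^ (-η) := by positivity
  have hQ1 : 1 ≤ ((N : ℝ) / Real.log N) ^ 2 := by
    have h1 : 1 ≤ (N : ℝ) / Real.log N := by
      rw [le_div_iff₀ hlog, one_mul]
      exact (Real.log_le_sub_one_of_pos hN0).trans (by linarith)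
    nlinarith
  -- the moduli are between 2 and N ^ θ'
  have hTle : ∀ a ∈ A, ∀ d ∈ T a, (d : ℝ) ≤ (N : ℝ) ^ θ' := by
    intro a ha d hd
    exact (hT a ha d hd).1.trans (Real.rpow_le_rpow_of_exponent_le hN1 hθθ')
  have hTN : ∀ a ∈ A, T a ⊆ Icc 1 N := by
    intro a ha d hd
    have h1 := (hT a ha d hd).2.1
    have h2 : (d : ℝ) ≤ N := by
      calc (d : ℝ) ≤ (N : ℝ) ^ θ' := hTle a ha d hd
        _ ≤ (N : ℝ) ^ (1 : ℝ) := Real.rpow_le_rpow_of_exponent_le hN1 (by linarith)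
        _ = N := Real.rpow_one _
    rw [Finset.mem_Icc]
    exact ⟨by omega, by exact_mod_cast h2⟩
  rcases lt_or_ge (N : ℝ) N₀ with hsmall | hlarge
  · -- small N
    have h1 := triv f hf N A T hTN
    have hNη : N₀ ^ (-η) ≤ (N : ℝ) ^ (-η) :=
      Real.rpow_le_rpow_of_nonpos hN0 hsmall.le (by linarith)
    have hcancel : N₀ ^ η * N₀ ^ (-η) = 1 := by
      rw [← Real.rpow_add hN₀0]; simp
    calc _ ≤ (A.card : ℝ) * (4 * (N : ℝ) ^ 4) := h1
      _ ≤ (A.card : ℝ) * (4 * N₀ ^ 4) := by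
          apply mul_le_mul_of_nonneg_left _ (Nat.cast_nonneg _)
          have := pow_le_pow_left₀ hN0.le hsmall.le 4
          linarith
      _ = (4 * N₀ ^ 4 * N₀ ^ η) * 1 * ((A.card : ℝ) * N₀ ^ (-η)) := by
          have : (4 * N₀ ^ 4 * N₀ ^ η) * 1 * ((A.card : ℝ) * N₀ ^ (-η)) =
            (A.card : ℝ) * (4 * N₀ ^ 4) * (N₀ ^ η * N₀ ^ (-η)) := by ring
          rw [this, hcancel, mul_one]
      _ ≤ ((I : ℝ) ^ 2 * C + 4 * N₀ ^ 4 * N₀ ^ η) * ((N : ℝ) / Real.log N) ^ 2 *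
          (1 + (A.card : ℝ) * (N : ℝ) ^ (-η)) := by
          have hc0 : 0 ≤ 4 * N₀ ^ 4 * N₀ ^ η := by positivity
          have hc1 : 0 ≤ (I : ℝ) ^ 2 * C := by positivity
          have hA0 : (0 : ℝ) ≤ A.card := Nat.cast_nonneg _
          have e1 : (A.card : ℝ) * N₀ ^ (-η) ≤ 1 + (A.card : ℝ) * (N : ℝ) ^ (-η) := by
            have := mul_le_mul_of_nonneg_left hNη hA0
            linarith
          apply mul_le_mul _ e1 (by positivity) (by positivity)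
          apply mul_le_mul _ hQ1 (by norm_num) (by positivity)
          linarith
  · -- large N
    have hN2' : 2 ≤ (N : ℝ) ^ ε₁ := by
      calc (2 : ℝ) = N₀ ^ ε₁ := by
            rw [hN₀def, ← Real.rpow_mul (by norm_num)]
            rw [one_div, inv_mul_cancel₀ hε₁.ne', Real.rpow_one]
        _ ≤ (N : ℝ) ^ ε₁ := Real.rpow_le_rpow hN₀0.le hlarge hε₁.le
    obtain ⟨D, hD⟩ : ∃ D : ℕ → ℕ, ∀ i, D i = ⌊(N : ℝ) ^ ((i : ℝ) * ε₁)⌋₊ := ⟨_, fun _ => rfl⟩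
    have hD1 : ∀ i, 1 ≤ D i := by
      intro i
      rw [hD]
      apply Nat.le_floor
      rw [Nat.cast_one]
      exact Real.one_le_rpow hN1 (by positivity)
    have hD0 : D 0 = 1 := by
      rw [hD]; simp
    have hDI : ∀ a ∈ A, ∀ d ∈ T a, d ≤ D I := by
      intro a ha d hd
      rw [hD]
      apply Nat.le_floor
      calc (d : ℝ) ≤ (N : ℝ) ^ θ' := hTle a ha d hd
        _ ≤ (N : ℝ) ^ ((I : ℝ) * ε₁) :=
          Real.rpow_le_rpow_of_exponent_le hN1 (by linarith)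
    have hratio : ∀ i, (D (i + 1) : ℝ) ≤ (N : ℝ) ^ ε₀ * D i := by
      intro i
      have h1 : (D (i + 1) : ℝ) ≤ (N : ℝ) ^ (((i + 1 : ℕ) : ℝ) * ε₁) := by
        rw [hD]; exact Nat.floor_le (by positivity)
      have h2 : (N : ℝ) ^ ((i : ℝ) * ε₁) ≤ 2 * D i := by
        have h3 : (N : ℝ) ^ ((i : ℝ) * ε₁) < (D i : ℝ) + 1 := by
          rw [hD]; exact Nat.lt_floor_add_one _
        have h4 : (1 : ℝ) ≤ D i := by exact_mod_cast hD1 i
        linarith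
      calc (D (i + 1) : ℝ) ≤ (N : ℝ) ^ (((i + 1 : ℕ) : ℝ) * ε₁) := h1
        _ = (N : ℝ) ^ ε₁ * (N : ℝ) ^ ((i : ℝ) * ε₁) := by
            rw [← Real.rpow_add hN0]; congr 1; push_cast; ring
        _ ≤ (N : ℝ) ^ ε₁ * (2 * D i) := mul_le_mul_of_nonneg_left h2 (by positivity)
        _ = ((N : ℝ) ^ ε₁ * 2) * D i := by ring
        _ ≤ ((N : ℝ) ^ ε₁ * (N : ℝ) ^ ε₁) * D i := by
            apply mul_le_mul_of_nonneg_right _ (Nat.cast_nonneg _)
            exact mul_le_mul_of_nonneg_left hN2' (by positivity)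
        _ = (N : ℝ) ^ ε₀ * D i := by
            rw [← Real.rpow_add hN0]; congr 2; rw [hε₁def]; ring
    -- the blocks
    obtain ⟨Tb, hTb⟩ : ∃ Tb : ℕ → ℤ → Finset ℕ, ∀ i a,
        Tb i a = (T a).filter (fun d => D i < d ∧ d ≤ D (i + 1)) := ⟨_, fun _ _ => rfl⟩
    have hblock : ∀ i, ∑ a ∈ A, (∑ d ∈ Tb i a, |Df f N a d|) ^ 2 ≤
        C * (N / Real.log N) ^ 2 * (1 + A.card * (N : ℝ) ^ (-η)) := by
      intro i
      apply hbk N (D i) (min (D (i + 1)) ⌊(N : ℝ) ^ θ'⌋₊) hN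
      · calc ((min (D (i + 1)) ⌊(N : ℝ) ^ θ'⌋₊ : ℕ) : ℝ) ≤ (⌊(N : ℝ) ^ θ'⌋₊ : ℝ) := by
              exact_mod_cast min_le_right _ _
          _ ≤ (N : ℝ) ^ θ' := Nat.floor_le (by positivity)
      · exact hD1 i
      · calc ((min (D (i + 1)) ⌊(N : ℝ) ^ θ'⌋₊ : ℕ) : ℝ) ≤ (D (i + 1) : ℝ) := by
              exact_mod_cast min_le_left _ _
          _ ≤ _ := hratio i
      · exact hf
      · exact hA
      · intro a ha d hd
        rw [hTb, Finset.mem_filter] at hd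
        refine ⟨hd.2.1, le_min hd.2.2 (Nat.le_floor (hTle a ha d hd.1)), (hT a ha d hd.1).2⟩
    have hsplit : ∀ a ∈ A, ∑ d ∈ T a, |Df f N a d| ≤
        ∑ i ∈ Finset.range I, ∑ d ∈ Tb i a, |Df f N a d| := by
      intro a ha
      have hrw : ∑ i ∈ Finset.range I, ∑ d ∈ Tb i a, |Df f N a d| =
          ∑ d ∈ T a, ∑ i ∈ Finset.range I,
            (if D i < d ∧ d ≤ D (i + 1) then |Df f N a d| else 0) := by
        rw [Finset.sum_comm]
        apply Finset.sum_congr rfl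
        intro i _
        rw [hTb, Finset.sum_filter]
      rw [hrw]
      apply Finset.sum_le_sum
      intro d hd
      obtain ⟨i, hi, h1, h2⟩ := block D I d (by
        rw [hD0]; exact (hT a ha d hd).2.1) (hDI a ha d hd)
      have h3 := Finset.single_le_sum (f := fun i =>
        (if D i < d ∧ d ≤ D (i + 1) then |Df f N a d| else 0))
        (fun j _ => by
          show 0 ≤ (if D j < d ∧ d ≤ D (j + 1) then |Df f N a d| else 0)
          split_ifs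
          · exact abs_nonneg _
          · exact le_refl _) hi
      have h4 : (if D i < d ∧ d ≤ D (i + 1) then |Df f N a d| else 0) = |Df f N a d| :=
        if_pos ⟨h1, h2⟩
      calc |Df f N a d| = (if D i < d ∧ d ≤ D (i + 1) then |Df f N a d| else 0) := h4.symm
        _ ≤ _ := h3
    calc ∑ a ∈ A, (∑ d ∈ T a, |Df f N a d|) ^ 2
        ≤ ∑ a ∈ A, (∑ i ∈ Finset.range I, ∑ d ∈ Tb i a, |Df f N a d|) ^ 2 :=
          Finset.sum_le_sum (fun a ha => pow_le_pow_left₀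
            (Finset.sum_nonneg (fun _ _ => abs_nonneg _)) (hsplit a ha) 2)
      _ ≤ ∑ a ∈ A, (I : ℝ) * ∑ i ∈ Finset.range I, (∑ d ∈ Tb i a, |Df f N a d|) ^ 2 := by
          apply Finset.sum_le_sum
          intro a _
          have := sq_sum_le_card_mul_sum_sq (s := Finset.range I)
            (f := fun i => ∑ d ∈ Tb i a, |Df f N a d|)
          simpa using this
      _ = (I : ℝ) * ∑ i ∈ Finset.range I, ∑ a ∈ A, (∑ d ∈ Tb i a, |Df f N a d|) ^ 2 := by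
          rw [← Finset.mul_sum, Finset.sum_comm]
      _ ≤ (I : ℝ) * ∑ i ∈ Finset.range I,
            (C * (N / Real.log N) ^ 2 * (1 + A.card * (N : ℝ) ^ (-η))) := by
          apply mul_le_mul_of_nonneg_left _ (Nat.cast_nonneg _)
          exact Finset.sum_le_sum (fun i _ => hblock i)
      _ = ((I : ℝ) ^ 2 * C) * (N / Real.log N) ^ 2 * (1 + A.card * (N : ℝ) ^ (-η)) := by
          rw [Finset.sum_const, Finset.card_range, nsmul_eq_mul]; ring
      _ ≤ ((I : ℝ) ^ 2 * C + 4 * N₀ ^ 4 * N₀ ^ η) * ((N : ℝ) / Real.log N) ^ 2 *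
          (1 + (A.card : ℝ) * (N : ℝ) ^ (-η)) := by
          apply mul_le_mul_of_nonneg_right _ hR0
          apply mul_le_mul_of_nonneg_right _ (by positivity)
          have : 0 ≤ 4 * N₀ ^ 4 * N₀ ^ η := by positivity
          linarith

end Pool.Agent.W95.RV
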